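import Mathlib
import Pool.Agent.N661.SN.Generic

/-!
Special geodesics and special points of the upper half plane: binary quadratic forms.
-/

set_option autoImplicit false

open UpperHalfPlane
open Pool.Agent.N661.SN (q q_im q_re NoReturn)

namespace Pool.Agent.Run7.h176.SG

/-- the hermitian form attached to a binary quadratic form, at the point `z` -/
noncomputable def ell (v1 v2 v3 : ℤ) (z : ℂ) : ℝ :=
  v1 * (z.re ^ 2 + z.im ^ 2) + v2 * z.re + v3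

theorem exp_bound {δ t : ℝ} (h0 : 0 ≤ t) (ht : t < δ) (hδ : δ ≤ 1 / 4) :
    Real.exp t - 1 ≤ 2 * δ := by
  have h1 := Real.abs_exp_sub_one_le (x := t) (by rw [abs_of_nonneg h0]; linarith)
  rw [abs_of_nonneg h0] at h1
  have := le_abs_self (Real.exp t - 1)
  linarith

theorem coords {w s : ℍ} {δ : ℝ} (hδ : δ ≤ 1 / 4) (hd : dist w s < δ) :
    ‖(w : ℂ) - (s : ℂ)‖ ≤ 2 * δ * s.im ∧ s.im ≤ 2 * w.im ∧ w.im ≤ 3 / 2 * s.im := by
  have hd0 : 0 ≤ dist w s := dist_nonneg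
  have hws := w.im_pos
  have hss := s.im_pos
  have k1 : ‖(w : ℂ) - (s : ℂ)‖ ≤ 2 * δ * s.im := by
    rw [← dist_eq_norm]
    refine (UpperHalfPlane.dist_coe_le w s).trans ?_
    have := exp_bound hd0 hd hδ
    nlinarith
  have k2 : |w.im - s.im| ≤ 2 * δ * s.im := by
    refine le_trans ?_ k1
    have := Complex.abs_im_le_norm ((w : ℂ) - (s : ℂ))
    simpa using this
  have k3 := abs_le.1 k2
  have k4 : 2 * δ * s.im ≤ 1 / 2 * s.im := by nlinarith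
  refine ⟨k1, by linarith [k3.1], by linarith [k3.2]⟩

theorem int_sq_le {D x : ℝ} (hD : 1 ≤ D) (h : x ^ 2 ≤ D) : |x| ≤ D := by
  have h1 : |x| ^ 2 ≤ D ^ 2 := by
    rw [sq_abs]
    nlinarith
  exact le_of_sq_le_sq h1 (by linarith)

/-- a point close to a special geodesic -/
theorem ell_small {w s : ℍ} {v1 v2 v3 : ℤ} {δ : ℝ} (hδ : δ ≤ 1 / 4) (hd : dist w s < δ)
    (hD : 0 < v2 ^ 2 - 4 * v1 * v3) (hs : ell v1 v2 v3 (s : ℂ) = 0) :
    |ell v1 v2 v3 (w : ℂ)| ≤ 16 * δ * ((v2 ^ 2 - 4 * v1 * v3 : ℤ) : ℝ) * w.im := by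
  obtain ⟨k1, k2, k3⟩ := coords hδ hd
  have hδ0 : 0 < δ := dist_nonneg.trans_lt hd
  have hws := w.im_pos
  have hss := s.im_pos
  set D : ℝ := ((v2 ^ 2 - 4 * v1 * v3 : ℤ) : ℝ) with hDdef
  have hD1 : (1 : ℝ) ≤ D := by
    rw [hDdef]; exact_mod_cast hD
  set x : ℝ := (w : ℂ).re with hx
  set y : ℝ := w.im with hy
  set x' : ℝ := (s : ℂ).re with hx'
  set y' : ℝ := s.im with hy'
  have hyc : (w : ℂ).im = y := rfl
  have hyc' : (s : ℂ).im = y' := rfl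
  have ex : |x - x'| ≤ 2 * δ * y' := by
    refine le_trans ?_ k1
    have := Complex.abs_re_le_norm ((w : ℂ) - (s : ℂ))
    simpa [hx, hx'] using this
  have ey : |y - y'| ≤ 2 * δ * y' := by
    refine le_trans ?_ k1
    have := Complex.abs_im_le_norm ((w : ℂ) - (s : ℂ))
    simpa [hy, hy'] using this
  unfold ell at hs ⊢
  rw [hyc'] at hs
  rw [hyc]
  change |(v1 : ℝ) * (x ^ 2 + y ^ 2) + v2 * x + v3| ≤ _
  have hs' : (v1 : ℝ) * (x' ^ 2 + y' ^ 2) + v2 * x' + v3 = 0 := hs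
  set t : ℝ := (v2 : ℝ) + 2 * x' * v1 with ht
  have hdisc : t ^ 2 + (2 * v1 * y') ^ 2 = D := by
    rw [hDdef, ht]
    push_cast
    linear_combination (4 * (v1 : ℝ)) * hs'
  have ht1 : |t| ≤ D := int_sq_le hD1 (by nlinarith [sq_nonneg (2 * (v1 : ℝ) * y')])
  have hv1 : 2 * |(v1 : ℝ)| * y' ≤ D := by
    have h1 : |2 * (v1 : ℝ) * y'| ≤ D := int_sq_le hD1 (by nlinarith [sq_nonneg t])
    rwa [abs_mul, abs_mul, abs_of_pos (show (0 : ℝ) < 2 by norm_num), abs_of_pos hss] at h1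
  have e : (v1 : ℝ) * (x ^ 2 + y ^ 2) + v2 * x + v3 =
      (x - x') * t + v1 * (x - x') ^ 2 + v1 * ((y - y') * (y + y')) := by
    rw [ht]
    linear_combination hs'
  rw [e]
  have b1 : |(x - x') * t| ≤ 2 * δ * y' * D := by
    rw [abs_mul]
    gcongr
  have b2 : |(v1 : ℝ) * (x - x') ^ 2| ≤ δ * y' * D := by
    rw [abs_mul, abs_pow]
    have h1 : |x - x'| ^ 2 ≤ (2 * δ * y') ^ 2 := by gcongr
    calc |(v1 : ℝ)| * |x - x'| ^ 2 ≤ |(v1 : ℝ)| * (2 * δ * y') ^ 2 := by gcongr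
      _ = (2 * |(v1 : ℝ)| * y') * (2 * δ ^ 2 * y') := by ring
      _ ≤ D * (2 * δ ^ 2 * y') := by gcongr
      _ = (δ * y' * D) * (2 * δ) := by ring
      _ ≤ (δ * y' * D) * 1 := by
          gcongr
          linarith
      _ = δ * y' * D := by ring
  have b3 : |(v1 : ℝ) * ((y - y') * (y + y'))| ≤ 3 * δ * y' * D := by
    rw [abs_mul, abs_mul]
    have h1 : |y + y'| ≤ 5 / 2 * y' := by
      rw [abs_of_pos (by positivity)]
      linarith
    calc |(v1 : ℝ)| * (|y - y'| * |y + y'|) ≤ |(v1 : ℝ)| * ((2 * δ * y') * (5 / 2 * y')) := by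
          gcongr
      _ = (2 * |(v1 : ℝ)| * y') * (5 / 2 * δ * y') := by ring
      _ ≤ D * (5 / 2 * δ * y') := by gcongr
      _ ≤ 3 * δ * y' * D := by nlinarith [mul_pos (mul_pos hδ0 hss) (lt_of_lt_of_le one_pos hD1)]
  calc |(x - x') * t + v1 * (x - x') ^ 2 + v1 * ((y - y') * (y + y'))|
      ≤ |(x - x') * t + v1 * (x - x') ^ 2| + |(v1 : ℝ) * ((y - y') * (y + y'))| := abs_add_le _ _
    _ ≤ |(x - x') * t| + |(v1 : ℝ) * (x - x') ^ 2| + |(v1 : ℝ) * ((y - y') * (y + y'))| := by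
        gcongr
        exact abs_add_le _ _
    _ ≤ 2 * δ * y' * D + δ * y' * D + 3 * δ * y' * D := by linarith
    _ = (6 * δ * D) * y' := by ring
    _ ≤ (6 * δ * D) * (2 * y) := by gcongr
    _ ≤ 16 * δ * D * y := by
        have : 0 < δ * D * y := by positivity
        nlinarith

/-- a point close to a special point -/
theorem q_small {w s : ℍ} {v1 v2 v3 : ℤ} {δ : ℝ} (hδ : δ ≤ 1 / 4) (hd : dist w s < δ)
    (hD : v2 ^ 2 - 4 * v1 * v3 < 0) (hs : q v1 v2 v3 (s : ℂ) = 0) :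
    ‖q v1 v2 v3 (w : ℂ)‖ ≤ 16 * δ * ((-(v2 ^ 2 - 4 * v1 * v3) : ℤ) : ℝ) * w.im := by
  obtain ⟨k1, k2, k3⟩ := coords hδ hd
  have hδ0 : 0 < δ := dist_nonneg.trans_lt hd
  have hws := w.im_pos
  have hss := s.im_pos
  set D : ℝ := ((-(v2 ^ 2 - 4 * v1 * v3) : ℤ) : ℝ) with hDdef
  have hD1 : (1 : ℝ) ≤ D := by
    rw [hDdef]
    have : 1 ≤ -(v2 ^ 2 - 4 * v1 * v3) := by linarith
    exact_mod_cast this
  unfold q at hs ⊢
  set W : ℂ := (w : ℂ) with hW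
  set S : ℂ := (s : ℂ) with hS
  have e : (v1 : ℂ) * W ^ 2 + v2 * W + v3 = (W - S) * (v1 * (W - S) + (2 * v1 * S + v2)) := by
    linear_combination hs
  have hsq : (2 * (v1 : ℂ) * S + v2) ^ 2 = ((-D : ℝ) : ℂ) := by
    rw [hDdef]
    push_cast
    linear_combination (4 * (v1 : ℂ)) * hs
  have hn : ‖2 * (v1 : ℂ) * S + v2‖ ≤ D := by
    have h1 : ‖2 * (v1 : ℂ) * S + v2‖ ^ 2 = D := by
      rw [← norm_pow, hsq, Complex.norm_real, norm_neg, Real.norm_of_nonneg (by linarith)]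
    refine le_of_sq_le_sq ?_ (by linarith)
    rw [h1]
    nlinarith
  have hv1 : 2 * |(v1 : ℝ)| * s.im ≤ D := by
    have h1 := Complex.abs_im_le_norm (2 * (v1 : ℂ) * S + v2)
    have h2 : (2 * (v1 : ℂ) * S + v2).im = 2 * v1 * s.im := by
      simp [hS]
    rw [h2, abs_mul, abs_mul, abs_of_pos (show (0 : ℝ) < 2 by norm_num), abs_of_pos hss] at h1
    exact h1.trans hn
  rw [e, norm_mul]
  have h2 : ‖(v1 : ℂ) * (W - S) + (2 * v1 * S + v2)‖ ≤ 2 * D := by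
    refine (norm_add_le _ _).trans ?_
    rw [norm_mul, Complex.norm_intCast]
    have h3 : |(v1 : ℝ)| * ‖W - S‖ ≤ D := by
      calc |(v1 : ℝ)| * ‖W - S‖ ≤ |(v1 : ℝ)| * (2 * δ * s.im) := by gcongr
        _ = (2 * |(v1 : ℝ)| * s.im) * δ := by ring
        _ ≤ D * 1 := by
            gcongr
            linarith
        _ = D := mul_one D
    linarith
  calc ‖W - S‖ * ‖(v1 : ℂ) * (W - S) + (2 * v1 * S + v2)‖ ≤ (2 * δ * s.im) * (2 * D) := by gcongr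
    _ = 4 * δ * D * s.im := by ring
    _ ≤ 4 * δ * D * (2 * w.im) := by gcongr
    _ ≤ 16 * δ * D * w.im := by
        have : 0 < δ * D * w.im := by positivity
        nlinarith

theorem arsinh_le {x : ℝ} (hx : 0 ≤ x) : Real.arsinh x ≤ x := by
  calc Real.arsinh x ≤ Real.arsinh (Real.sinh x) := Real.arsinh_le_arsinh.2 (Real.self_le_sinh_iff.2 hx)
    _ = x := Real.arsinh_sinh x

/-- an integral matrix which almost fixes a point -/
theorem dist_of_near {z : ℍ} {A B C D : ℤ} (hn : 0 < A * D - B * C) :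
    ∃ w' : ℍ, (w' : ℂ) * (C * (z : ℂ) + D) = A * (z : ℂ) + B ∧
      dist w' z ≤ ‖q C (D - A) (-B) (z : ℂ)‖ / z.im := by
  have hzi := z.im_pos
  have hden : (C : ℂ) * (z : ℂ) + D ≠ 0 := by
    intro h0
    have him := congrArg Complex.im h0
    have hre := congrArg Complex.re h0
    simp at him hre
    rcases him with hC | hz0
    · rw [hC] at hre
      simp at hre
      rw [hC, hre] at hn
      simp at hn
    · linarith
  have hnr : (0 : ℝ) < ((A * D - B * C : ℤ) : ℝ) := by exact_mod_cast hn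
  have hn1 : (1 : ℝ) ≤ ((A * D - B * C : ℤ) : ℝ) := by exact_mod_cast hn
  set n : ℝ := ((A * D - B * C : ℤ) : ℝ) with hndef
  set K : ℝ := ‖(C : ℂ) * (z : ℂ) + D‖ with hK
  have hK0 : 0 < K := norm_pos_iff.2 hden
  set W : ℂ := (A * (z : ℂ) + B) / (C * (z : ℂ) + D) with hW
  have hWe : W * (C * (z : ℂ) + D) = A * (z : ℂ) + B := div_mul_cancel₀ _ hden
  have him : W.im = n * z.im / K ^ 2 := by
    have h1 : (W * (C * (z : ℂ) + D)) * (starRingEnd ℂ) (C * (z : ℂ) + D) =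
        (A * (z : ℂ) + B) * (starRingEnd ℂ) (C * (z : ℂ) + D) := by rw [hWe]
    rw [mul_assoc, Complex.mul_conj, Complex.normSq_eq_norm_sq] at h1
    have h2 := congrArg Complex.im h1
    rw [Complex.im_mul_ofReal] at h2
    rw [eq_div_iff (by positivity), h2]
    simp [hndef]
    ring
  have hWpos : 0 < W.im := by rw [him]; positivity
  refine ⟨⟨W, hWpos⟩, hWe, ?_⟩
  set w' : ℍ := ⟨W, hWpos⟩ with hw'
  have hwc : (w' : ℂ) = W := rfl
  have hwim : w'.im = n * z.im / K ^ 2 := him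
  rw [UpperHalfPlane.dist_eq, hwc, dist_eq_norm]
  have hq : q C (D - A) (-B) (z : ℂ) = ((z : ℂ) - W) * (C * (z : ℂ) + D) := by
    rw [q, sub_mul, hWe]
    push_cast
    ring
  have hsq : √(w'.im * z.im) = √n * z.im / K := by
    rw [hwim]
    rw [show n * z.im / K ^ 2 * z.im = (√n * z.im / K) ^ 2 by
      rw [div_pow, mul_pow, Real.sq_sqrt hnr.le]; ring]
    exact Real.sqrt_sq (by positivity)
  have hns : 1 ≤ √n := by
    rw [show (1 : ℝ) = √1 by simp]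
    exact Real.sqrt_le_sqrt hn1
  rw [hsq, hq, norm_mul, ← hK, norm_sub_rev (z : ℂ) W]
  have hx0 : 0 ≤ ‖W - (z : ℂ)‖ / (2 * (√n * z.im / K)) := by positivity
  calc 2 * Real.arsinh (‖W - (z : ℂ)‖ / (2 * (√n * z.im / K)))
      ≤ 2 * (‖W - (z : ℂ)‖ / (2 * (√n * z.im / K))) := by
        have := arsinh_le hx0
        linarith
    _ = ‖W - (z : ℂ)‖ * K / (√n * z.im) := by
        field_simp
    _ ≤ ‖W - (z : ℂ)‖ * K / (1 * z.im) := by gcongr
    _ = ‖W - (z : ℂ)‖ * K / z.im := by rw [one_mul]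

/-- No special point near a point without near returns. -/
theorem no_cm {z : ℍ} {N' : ℕ} {δ' : ℝ} (hz : NoReturn N' δ' z) {u1 u2 u3 : ℤ}
    (hneg : u2 ^ 2 - 4 * u1 * u3 < 0) (hM : 1 - (u2 ^ 2 - 4 * u1 * u3) ≤ 4 * N')
    (hq : ‖q u1 u2 u3 (z : ℂ)‖ < δ' * z.im) : False := by
  have hzi := z.im_pos
  obtain ⟨τ, A, D, hτ, hA, hD⟩ : ∃ τ A D : ℤ, (τ = 0 ∨ τ = 1) ∧ D - A = u2 ∧ A + D = τ := by
    rcases Int.even_or_odd' u2 with ⟨k, hk | hk⟩
    · exact ⟨0, -k, k, Or.inl rfl, by linarith, by ring⟩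
    · exact ⟨1, -k, k + 1, Or.inr rfl, by linarith, by ring⟩
  have hτ2 : τ ^ 2 ≤ 1 ∧ 0 ≤ τ ^ 2 := by
    rcases hτ with h | h <;> subst h <;> norm_num
  have hdet : 4 * (A * D - (-u3) * u1) = τ ^ 2 - (u2 ^ 2 - 4 * u1 * u3) := by
    rw [← hA, ← hD]; ring
  have h0 : 0 < A * D - (-u3) * u1 := by
    have := hτ2.2
    linarith
  have h1 : A * D - (-u3) * u1 ≤ N' := by
    have := hτ2.1
    linarith
  have h2 : ¬ (-u3 = 0 ∧ u1 = 0 ∧ A = D) := by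
    rintro ⟨a1, a2, a3⟩
    rw [a2] at hneg
    have : 0 ≤ u2 ^ 2 := sq_nonneg _
    simp at hneg
    linarith
  obtain ⟨w', hw', hd⟩ := dist_of_near (z := z) h0
  have h3 := hz A (-u3) u1 D h0 h1 h2 w' hw'
  have h4 : ‖q u1 (D - A) (-(-u3)) (z : ℂ)‖ / z.im < δ' := by
    rw [div_lt_iff₀ hzi, neg_neg, hA]
    exact hq
  linarith

/-- Two special geodesics near a point without near returns coincide. -/
theorem one_line {z : ℍ} {R : ℝ} (hR : 1 ≤ R) (hzR : ‖(z : ℂ)‖ ≤ R) (hzr : 1 / R ≤ z.im)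
    {N' M : ℕ} {δ' ε : ℝ} (hz : NoReturn N' δ' z) (hM1 : 1 ≤ M) (hM : 1 + M ^ 2 ≤ 4 * N')
    (hε0 : 0 < ε) (hε1 : 6 * (M + 1) * ε < δ') (hε2 : 24 * R * ((M + 1) * ε) < 1)
    {v1 v2 v3 w1 w2 w3 : ℤ} (hv' : v2 ^ 2 - 4 * v1 * v3 ≤ M)
    (hw : 0 < w2 ^ 2 - 4 * w1 * w3) (hw' : w2 ^ 2 - 4 * w1 * w3 ≤ M)
    (ev : |ell v1 v2 v3 (z : ℂ)| ≤ ε * z.im) (ew : |ell w1 w2 w3 (z : ℂ)| ≤ ε * z.im) :
    v1 * w2 - v2 * w1 = 0 ∧ 2 * (v1 * w3 - v3 * w1) = 0 ∧ v2 * w3 - v3 * w2 = 0 := by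
  have hzi := z.im_pos
  have hziR : z.im ≤ R := by
    have := Complex.abs_im_le_norm (z : ℂ)
    rw [UpperHalfPlane.coe_im] at this
    exact (le_abs_self _).trans (this.trans hzR)
  have hzx : |(z : ℂ).re| ≤ R := (Complex.abs_re_le_norm (z : ℂ)).trans hzR
  have hMr : (1 : ℝ) ≤ M := by exact_mod_cast hM1
  have hε3 : ε ≤ 1 / 48 := by
    have h1 : (0 : ℝ) < 24 * R * ((M + 1) * ε) := by positivity
    nlinarith [mul_pos (show (0 : ℝ) < R by linarith) hε0, mul_nonneg (show (0 : ℝ) ≤ R - 1 by linarith) hε0.le,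
      mul_nonneg (mul_nonneg (show (0 : ℝ) ≤ R by linarith) hε0.le) (show (0 : ℝ) ≤ (M : ℝ) - 1 by linarith)]
  set x : ℝ := (z : ℂ).re with hx
  set y : ℝ := z.im with hy
  have hyc : (z : ℂ).im = y := rfl
  have bound : ∀ {a b c : ℤ}, b ^ 2 - 4 * a * c ≤ M → |ell a b c (z : ℂ)| ≤ ε * y →
      |(b : ℝ) + 2 * x * a| ≤ M + 1 ∧ |(a : ℝ)| * y ≤ M + 1 := by
    intro a b c h1 h2
    have h1' : (b : ℝ) ^ 2 - 4 * a * c ≤ M := by exact_mod_cast h1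
    set e := ell a b c (z : ℂ) with he
    have he' : e = a * (x ^ 2 + y ^ 2) + b * x + c := by rw [he, ell, hyc]
    have h3 : ((b : ℝ) + 2 * x * a) ^ 2 + 4 * (a * y) ^ 2 ≤ M + 4 * (a * e) := by
      rw [he']
      nlinarith
    have h4 : (a : ℝ) * e ≤ |(a : ℝ)| * (ε * y) := by
      calc (a : ℝ) * e ≤ |(a : ℝ) * e| := le_abs_self _
        _ = |(a : ℝ)| * |e| := abs_mul _ _
        _ ≤ _ := by gcongr
    set T : ℝ := |(a : ℝ)| * y with hT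
    have hT2 : T ^ 2 = ((a : ℝ) * y) ^ 2 := by rw [hT, mul_pow, mul_pow, sq_abs]
    have hT0 : 0 ≤ T := by positivity
    have h5 : ((b : ℝ) + 2 * x * a) ^ 2 + 4 * T ^ 2 ≤ M + 4 * (ε * T) := by
      rw [hT2]
      have : |(a : ℝ)| * (ε * y) = ε * T := by rw [hT]; ring
      rw [this] at h4
      linarith
    have h6 : 4 * (ε * T) ≤ 2 * T ^ 2 + 2 * ε ^ 2 := by nlinarith [sq_nonneg (T - ε)]
    have h7 : ε ^ 2 ≤ 1 / 2 := by nlinarith
    constructor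
    · apply int_sq_le (by linarith)
      nlinarith [sq_nonneg T]
    · refine le_of_sq_le_sq ?_ (by linarith)
      nlinarith [sq_nonneg ((b : ℝ) + 2 * x * a)]
  obtain ⟨a1, a2⟩ := bound hv' ev
  obtain ⟨b1, b2⟩ := bound hw' ew
  set e : ℝ := ell v1 v2 v3 (z : ℂ) with he
  set e' : ℝ := ell w1 w2 w3 (z : ℂ) with he'
  have hedef : e = v1 * (x ^ 2 + y ^ 2) + v2 * x + v3 := by rw [he, ell, hyc]
  have hedef' : e' = w1 * (x ^ 2 + y ^ 2) + w2 * x + w3 := by rw [he', ell, hyc]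
  set u1 : ℤ := v1 * w2 - v2 * w1 with hu1
  set u2 : ℤ := 2 * (v1 * w3 - v3 * w1) with hu2
  set u3 : ℤ := v2 * w3 - v3 * w2 with hu3
  have him : (q u1 u2 u3 (z : ℂ)).im = 2 * ((v1 * y) * e' - (w1 * y) * e) := by
    rw [q_im, hyc, hu1, hu2, hedef, hedef']
    push_cast
    ring
  have hre : (q u1 u2 u3 (z : ℂ)).re =
      ((v2 : ℝ) + 2 * x * v1) * e' - ((w2 : ℝ) + 2 * x * w1) * e := by
    rw [q_re, hyc, hu1, hu2, hu3, hedef, hedef']
    push_cast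
    ring
  have a2' : |(v1 : ℝ) * y| ≤ M + 1 := by rwa [abs_mul, abs_of_pos hzi]
  have b2' : |(w1 : ℝ) * y| ≤ M + 1 := by rwa [abs_mul, abs_of_pos hzi]
  have cim : |(q u1 u2 u3 (z : ℂ)).im| ≤ 4 * ((M + 1) * (ε * y)) := by
    rw [him, abs_mul, abs_of_pos (show (0 : ℝ) < 2 by norm_num)]
    have h1 : |(v1 * y) * e' - (w1 * y) * e| ≤ (M + 1) * (ε * y) + (M + 1) * (ε * y) := by
      refine (abs_sub _ _).trans ?_
      rw [abs_mul, abs_mul (_ * y) e]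
      gcongr
    linarith
  have cre : |(q u1 u2 u3 (z : ℂ)).re| ≤ 2 * ((M + 1) * (ε * y)) := by
    rw [hre]
    have h1 : |((v2 : ℝ) + 2 * x * v1) * e' - ((w2 : ℝ) + 2 * x * w1) * e| ≤
        (M + 1) * (ε * y) + (M + 1) * (ε * y) := by
      refine (abs_sub _ _).trans ?_
      rw [abs_mul, abs_mul _ e]
      gcongr
    linarith
  have hqn : ‖q u1 u2 u3 (z : ℂ)‖ ≤ 6 * (M + 1) * ε * y := by
    refine (Complex.norm_le_abs_re_add_abs_im _).trans ?_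
    linarith
  by_contra hcon
  have hne : ¬ (u1 = 0 ∧ u2 = 0 ∧ u3 = 0) := hcon
  -- lower bound of the discriminant
  have hdisc : -((M : ℤ) ^ 2) ≤ u2 ^ 2 - 4 * u1 * u3 := by
    have e1 : u2 ^ 2 - 4 * u1 * u3 = (v2 * w2 - 2 * v1 * w3 - 2 * v3 * w1) ^ 2 -
        (v2 ^ 2 - 4 * v1 * v3) * (w2 ^ 2 - 4 * w1 * w3) := by
      rw [hu1, hu2, hu3]; ring
    have e2 : (v2 ^ 2 - 4 * v1 * v3) * (w2 ^ 2 - 4 * w1 * w3) ≤ (M : ℤ) * M := by
      apply mul_le_mul hv' hw' hw.le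
      exact Int.natCast_nonneg M
    rw [e1]
    nlinarith [sq_nonneg (v2 * w2 - 2 * v1 * w3 - 2 * v3 * w1)]
  have hMpos : (0 : ℝ) < M := by linarith
  set ε' : ℝ := 6 * (M + 1) * ε / M with hε'
  have hε'0 : 0 < ε' := by positivity
  have hε'M : ε' * M = 6 * (M + 1) * ε := by
    rw [hε']; field_simp
  have hqn' : ‖q u1 u2 u3 (z : ℂ)‖ ≤ ε' * M * (z : ℂ).im := by
    rw [hε'M]; exact hqn
  have hsm : 4 * R * (ε' * M) < 1 := by rw [hε'M]; linarith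
  have hε'1 : ε' ≤ 1 / 2 := by
    have h1 : ε' ≤ ε' * M := by nlinarith
    have h2 : 0 < ε' * M := by positivity
    nlinarith
  obtain ⟨p1, p2, p3⟩ := Pool.Agent.N661.SN.size (v1 := u1) (v2 := u2) (v3 := u3) (z := (z : ℂ))
    (R := R) hzi hziR hzx (s := M) hMpos hε'0 hε'1 (by
      have : (-((M : ℤ) ^ 2) : ℝ) ≤ (u2 : ℝ) ^ 2 - 4 * u1 * u3 := by exact_mod_cast hdisc
      push_cast at this
      nlinarith) hqn'
  obtain ⟨n1, n2⟩ := Pool.Agent.N661.SN.nondeg (z := (z : ℂ)) hR hzi hzr hMpos hε'0 hsm hne hqn' p2 p3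
  refine no_cm hz n2 ?_ (hqn.trans_lt ?_)
  · have : (1 : ℤ) + (M : ℤ) ^ 2 ≤ 4 * N' := by exact_mod_cast hM
    linarith
  · exact mul_lt_mul_of_pos_right hε1 hzi

end Pool.Agent.Run7.h176.SG
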