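import Mathlib
import Pool.Agent.Run7.h176.SG.Geo
import Pool.Agent.N889.SN.Horo

/-!
Walks on the tree of the prime `3` with a free choice of the first direction, and the arithmetic of
binary quadratic forms along such a walk.
-/

set_option autoImplicit false

open Finset

namespace Pool.Agent.Run7.h176.SG

theorem im_third {w : ℂ} (hw : 0 < w.im) (j : ℕ) : 0 < ((w + (j : ℂ)) / 3).im := by
  have : ((w + (j : ℂ)) / 3).im = w.im / 3 := by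
    rw [show (3 : ℂ) = ((3 : ℝ) : ℂ) by norm_num, Complex.div_ofReal_im]
    simp
  rw [this]; positivity

/-- one step with a free choice of the neighbour -/
theorem free {U : ℂ → ℂ} {K : ℝ} (hK : 0 ≤ K) (hper : ∀ (n : ℕ) (z : ℂ), 0 < z.im → U (z + n) = U z)
    {c : ℂ} (hcK : ‖c‖ ≤ K)
    (hc : ∀ z : ℂ, 0 < z.im → U (3 * z) + ∑ b ∈ range 3, U ((z + (b : ℂ)) / 3) = c * U z)
    {w : ℂ} (hw : 0 < w.im) (j : ℕ) :
    ‖U w‖ ≤ (K + 3) * ‖U ((w + (j : ℂ)) / 3)‖ ∨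
      ∃ b : ℕ, b < 3 ∧ ‖U w‖ ≤ (K + 3) * ‖U (((w + (j : ℂ)) / 3 + (b : ℂ)) / 3)‖ := by
  by_contra hcon
  rw [not_or] at hcon
  obtain ⟨h1, h2⟩ := hcon
  rw [not_le] at h1
  have hK3 : 0 < K + 3 := by linarith
  set x := ‖U w‖ with hx
  have hx0 : 0 < x := lt_of_le_of_lt (by positivity) h1
  have c1 : ‖U ((w + (j : ℂ)) / 3)‖ < x / (K + 3) := by
    rw [lt_div_iff₀ hK3, mul_comm]; exact h1
  have c2 : ∀ b ∈ range 3, ‖U (((w + (j : ℂ)) / 3 + (b : ℂ)) / 3)‖ ≤ x / (K + 3) := by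
    intro b hb
    rw [le_div_iff₀ hK3, mul_comm]
    by_contra h
    exact h2 ⟨b, mem_range.1 hb, (not_le.1 h).le⟩
  have h3 := hc ((w + (j : ℂ)) / 3) (im_third hw j)
  rw [show (3 : ℂ) * ((w + (j : ℂ)) / 3) = w + j by ring, hper j w hw] at h3
  have h4 : U w = c * U ((w + (j : ℂ)) / 3) - ∑ b ∈ range 3, U (((w + (j : ℂ)) / 3 + (b : ℂ)) / 3) := by
    rw [← h3]; ring
  have h5 : x ≤ ‖c‖ * ‖U ((w + (j : ℂ)) / 3)‖ + ∑ b ∈ range 3, ‖U (((w + (j : ℂ)) / 3 + (b : ℂ)) / 3)‖ := by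
    rw [hx, h4]
    refine (norm_sub_le _ _).trans ?_
    rw [norm_mul]
    gcongr
    exact norm_sum_le _ _
  have h6 := Finset.sum_le_sum c2
  rw [sum_const, card_range, nsmul_eq_mul] at h6
  push_cast at h6
  have h7 : ‖c‖ * ‖U ((w + (j : ℂ)) / 3)‖ ≤ K * (x / (K + 3)) := by
    gcongr
  have h8 : K * (x / (K + 3)) + 3 * (x / (K + 3)) = x := by
    field_simp
  rcases eq_or_lt_of_le (norm_nonneg c) with hc0 | hc0
  · rw [← hc0, zero_mul, zero_add] at h5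
    have h9 : 0 < x / (K + 3) := by positivity
    rcases eq_or_lt_of_le hK with hK0 | hK0
    · -- `K = 0`
      have h10 : ∑ b ∈ range 3, ‖U (((w + (j : ℂ)) / 3 + (b : ℂ)) / 3)‖ < 3 * (x / (K + 3)) := by
        have : ∀ b ∈ range 3, ‖U (((w + (j : ℂ)) / 3 + (b : ℂ)) / 3)‖ < x / (K + 3) := by
          intro b hb
          rw [lt_div_iff₀ hK3, mul_comm]
          by_contra h
          exact h2 ⟨b, mem_range.1 hb, not_lt.1 h⟩
        have h11 := Finset.sum_lt_sum_of_nonempty (s := range 3) ⟨0, by simp⟩ this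
        rw [sum_const, card_range, nsmul_eq_mul] at h11
        exact_mod_cast h11
      rw [← hK0] at h10 h8
      linarith
    · nlinarith
  · have h9 : ‖c‖ * ‖U ((w + (j : ℂ)) / 3)‖ < ‖c‖ * (x / (K + 3)) :=
      mul_lt_mul_of_pos_left c1 hc0
    have h10 : ‖c‖ * (x / (K + 3)) ≤ K * (x / (K + 3)) := by gcongr
    linarith

/-- a walk which starts in a given direction -/
theorem walk {U : ℂ → ℂ} {K : ℝ} (hK : 0 ≤ K) (hper : ∀ (n : ℕ) (z : ℂ), 0 < z.im → U (z + n) = U z)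
    {c : ℂ} (hcK : ‖c‖ ≤ K)
    (hc : ∀ z : ℂ, 0 < z.im → U (3 * z) + ∑ b ∈ range 3, U ((z + (b : ℂ)) / 3) = c * U z)
    {z : ℂ} (hz : 0 < z.im) {b0 : ℕ} (hb0 : b0 < 3) (J : ℕ) :
    ∃ m b : ℕ, (m = J + 1 ∨ m = J + 2) ∧ b < 3 ^ m ∧ b % 3 = b0 ∧
      ‖U z‖ ≤ (K + 3) ^ m * ‖U ((z + (b : ℂ)) / 3 ^ m)‖ := by
  have h3 : (1 : ℝ) ≤ K + 3 := by linarith
  have him : ∀ (b m : ℕ), 0 < ((z + (b : ℂ)) / 3 ^ m).im := by
    intro b m
    have : ((z + (b : ℂ)) / 3 ^ m).im = z.im / 3 ^ m := by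
      rw [show (3 : ℂ) ^ m = (((3 : ℝ) ^ m : ℝ) : ℂ) by push_cast; ring, Complex.div_ofReal_im]
      simp
    rw [this]; positivity
  induction J with
  | zero =>
    rcases free hK hper hcK hc hz b0 with h | ⟨b, hb, h⟩
    · refine ⟨1, b0, Or.inl rfl, by simpa using hb0, Nat.mod_eq_of_lt hb0, ?_⟩
      simpa using h
    · refine ⟨2, b0 + 3 * b, Or.inr rfl, by norm_num; omega, by omega, ?_⟩
      have e : ((z + (b0 : ℂ)) / 3 + (b : ℂ)) / 3 = (z + ((b0 + 3 * b : ℕ) : ℂ)) / 3 ^ 2 := by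
        push_cast; ring
      rw [e] at h
      refine h.trans ?_
      have h9 : K + 3 ≤ (K + 3) ^ 2 := by nlinarith
      gcongr
  | succ J ih =>
    obtain ⟨m, b, hm, hb, hbm, hle⟩ := ih
    rcases hm with hm | hm
    · subst hm
      have hL : (0 : ℝ) < K + 3 := by linarith
      rcases free hK hper hcK hc (him b (J + 1)) 0 with h | ⟨j, hj, h⟩
      · refine ⟨J + 2, b, Or.inl rfl, hb.trans (Nat.pow_lt_pow_right (by norm_num) (by omega)), hbm, ?_⟩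
        have e : ((z + (b : ℂ)) / 3 ^ (J + 1) + ((0 : ℕ) : ℂ)) / 3 = (z + (b : ℂ)) / 3 ^ (J + 2) := by
          push_cast
          field_simp
          ring
        rw [e] at h
        calc ‖U z‖ ≤ (K + 3) ^ (J + 1) * ‖U ((z + (b : ℂ)) / 3 ^ (J + 1))‖ := hle
          _ ≤ (K + 3) ^ (J + 1) * ((K + 3) * ‖U ((z + (b : ℂ)) / 3 ^ (J + 2))‖) := by gcongr
          _ = _ := by ring
      · refine ⟨J + 3, b + 3 ^ (J + 2) * j, Or.inr rfl, ?_, ?_, ?_⟩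
        · have h1 : b < 3 ^ (J + 2) := hb.trans (Nat.pow_lt_pow_right (by norm_num) (by omega))
          calc b + 3 ^ (J + 2) * j < 3 ^ (J + 2) + 3 ^ (J + 2) * j := by omega
            _ = 3 ^ (J + 2) * (j + 1) := by ring
            _ ≤ 3 ^ (J + 2) * 3 := Nat.mul_le_mul_left _ (by omega)
            _ = 3 ^ (J + 3) := by ring
        · rw [pow_succ, mul_assoc, mul_comm (3 ^ (J + 1)), mul_assoc, Nat.add_mul_mod_self_left]
          exact hbm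
        · have e : ((((z + (b : ℂ)) / 3 ^ (J + 1) + ((0 : ℕ) : ℂ)) / 3) + (j : ℂ)) / 3 =
              (z + ((b + 3 ^ (J + 2) * j : ℕ) : ℂ)) / 3 ^ (J + 3) := by
            push_cast
            field_simp
            ring
          rw [e] at h
          set X := ‖U ((z + ((b + 3 ^ (J + 2) * j : ℕ) : ℂ)) / 3 ^ (J + 3))‖ with hX
          have hX0 : 0 ≤ X := norm_nonneg _
          calc ‖U z‖ ≤ (K + 3) ^ (J + 1) * ‖U ((z + (b : ℂ)) / 3 ^ (J + 1))‖ := hle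
            _ ≤ (K + 3) ^ (J + 1) * ((K + 3) * X) := by gcongr
            _ = (K + 3) ^ (J + 2) * X := by ring
            _ ≤ (K + 3) ^ (J + 3) * X :=
                mul_le_mul_of_nonneg_right (pow_le_pow_right₀ h3 (by omega)) hX0
    · exact ⟨m, b, Or.inl hm, hb, hbm, hle⟩

/-- a direction in which a primitive form is not divisible by `3` -/
theorem direction {v1 v2 v3 x y t : ℤ} (h : v1 * x + v2 * y + v3 * t = 1) :
    ∃ b0 : ℕ, b0 < 3 ∧ ∀ b : ℕ, b % 3 = b0 → ¬ (3 : ℤ) ∣ (b : ℤ) ^ 2 * v1 - b * v2 + v3 := by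
  by_contra hcon
  push Not at hcon
  obtain ⟨r0, e0, h0⟩ := hcon 0 (by norm_num)
  obtain ⟨r1, e1, h1⟩ := hcon 1 (by norm_num)
  obtain ⟨r2, e2, h2⟩ := hcon 2 (by norm_num)
  have f0 : (r0 : ℤ) % 3 = 0 := by omega
  have f1 : (r1 : ℤ) % 3 = 1 := by omega
  have f2 : (r2 : ℤ) % 3 = 2 := by omega
  obtain ⟨k0, hk0⟩ : ∃ k : ℤ, (r0 : ℤ) = 3 * k := ⟨r0 / 3, by omega⟩
  obtain ⟨k1, hk1⟩ : ∃ k : ℤ, (r1 : ℤ) = 3 * k + 1 := ⟨r1 / 3, by omega⟩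
  obtain ⟨k2, hk2⟩ : ∃ k : ℤ, (r2 : ℤ) = 3 * k + 2 := ⟨r2 / 3, by omega⟩
  rw [hk0] at h0
  rw [hk1] at h1
  rw [hk2] at h2
  have g0 : (3 : ℤ) ∣ v3 := by
    have e : v3 = ((3 * k0) ^ 2 * v1 - 3 * k0 * v2 + v3) - 3 * (3 * k0 ^ 2 * v1 - k0 * v2) := by ring
    rw [e]
    exact dvd_sub h0 (dvd_mul_right _ _)
  have g1 : (3 : ℤ) ∣ v1 - v2 + v3 := by
    have e : v1 - v2 + v3 = ((3 * k1 + 1) ^ 2 * v1 - (3 * k1 + 1) * v2 + v3) -
        3 * ((3 * k1 ^ 2 + 2 * k1) * v1 - k1 * v2) := by ring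
    rw [e]
    exact dvd_sub h1 (dvd_mul_right _ _)
  have g2 : (3 : ℤ) ∣ 4 * v1 - 2 * v2 + v3 := by
    have e : 4 * v1 - 2 * v2 + v3 = ((3 * k2 + 2) ^ 2 * v1 - (3 * k2 + 2) * v2 + v3) -
        3 * ((3 * k2 ^ 2 + 4 * k2) * v1 - k2 * v2) := by ring
    rw [e]
    exact dvd_sub h2 (dvd_mul_right _ _)
  have d3 : (3 : ℤ) ∣ v3 := g0
  have d1 : (3 : ℤ) ∣ v1 := by omega
  have d2 : (3 : ℤ) ∣ v2 := by omega
  have : (3 : ℤ) ∣ 1 := by
    rw [← h]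
    exact dvd_add (dvd_add (d1.mul_right _) (d2.mul_right _)) (d3.mul_right _)
  norm_num at this

/-- a form which becomes proportional to `v` has a large discriminant -/
theorem arith {v1 v2 v3 x y t : ℤ} (h : v1 * x + v2 * y + v3 * t = 1)
    (hv : 0 < v2 ^ 2 - 4 * v1 * v3) {b : ℤ} (hb : ¬ (3 : ℤ) ∣ b ^ 2 * v1 - b * v2 + v3) {m : ℕ}
    {w1 w2 w3 W2 W3 : ℤ} (hW2 : W2 = 2 * b * w1 + 3 ^ m * w2)
    (hW3 : W3 = b ^ 2 * w1 + b * 3 ^ m * w2 + 9 ^ m * w3)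
    (hw : 0 < w2 ^ 2 - 4 * w1 * w3)
    (c1 : v1 * W2 - v2 * w1 = 0) (c2 : 2 * (v1 * W3 - v3 * w1) = 0) (c3 : v2 * W3 - v3 * W2 = 0) :
    9 ^ m ≤ w2 ^ 2 - 4 * w1 * w3 := by
  have c2' : v1 * W3 - v3 * w1 = 0 := by linarith
  have h9 : (9 : ℤ) ^ m = 3 ^ m * 3 ^ m := by
    rw [← mul_pow]; norm_num
  set k : ℤ := w1 * x + W2 * y + W3 * t with hk
  have f1 : w1 = v1 * k := by
    rw [hk]
    linear_combination (-w1) * h - y * c1 - t * c2'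
  have f2 : W2 = v2 * k := by
    rw [hk]
    linear_combination (-W2) * h + x * c1 - t * c3
  have f3 : W3 = v3 * k := by
    rw [hk]
    linear_combination (-W3) * h + x * c2' + y * c3
  have g3 : 9 ^ m * w3 = k * (b ^ 2 * v1 - b * v2 + v3) := by
    linear_combination (-1) * hW3 + f3 + b * hW2 - b * f2 + b ^ 2 * f1
  have hd : (9 : ℤ) ^ m ∣ k := by
    have hp : Prime (3 : ℤ) := Int.prime_three
    have hcop : IsCoprime ((9 : ℤ) ^ m) (b ^ 2 * v1 - b * v2 + v3) := by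
      have h1 : IsCoprime (3 : ℤ) (b ^ 2 * v1 - b * v2 + v3) := (Prime.coprime_iff_not_dvd hp).2 hb
      have h2 : IsCoprime ((3 : ℤ) ^ (2 * m)) (b ^ 2 * v1 - b * v2 + v3) := IsCoprime.pow_left h1
      rwa [pow_mul, show (3 : ℤ) ^ 2 = 9 by norm_num] at h2
    exact hcop.dvd_of_dvd_mul_right ⟨w3, g3.symm⟩
  obtain ⟨k', hk'⟩ := hd
  have hdisc : W2 ^ 2 - 4 * w1 * W3 = 9 ^ m * (w2 ^ 2 - 4 * w1 * w3) := by
    rw [hW2, hW3, h9]; ring
  have hdisc2 : W2 ^ 2 - 4 * w1 * W3 = k ^ 2 * (v2 ^ 2 - 4 * v1 * v3) := by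
    rw [f2, f3]
    nth_rewrite 1 [f1]
    ring
  have h9pos : (0 : ℤ) < 9 ^ m := by positivity
  have e1 : w2 ^ 2 - 4 * w1 * w3 = 9 ^ m * k' ^ 2 * (v2 ^ 2 - 4 * v1 * v3) := by
    apply mul_left_cancel₀ h9pos.ne'
    rw [← hdisc, hdisc2, hk']
    ring
  have hk0 : k' ≠ 0 := by
    rintro rfl
    rw [e1] at hw
    simp at hw
  have hk1 : 1 ≤ k' ^ 2 := by
    have : 0 < k' ^ 2 := by positivity
    linarith
  rw [e1]
  have h2 : 1 ≤ k' ^ 2 * (v2 ^ 2 - 4 * v1 * v3) := by nlinarith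
  nlinarith

end Pool.Agent.Run7.h176.SG
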