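import Mathlib
import Pool.Agent.Run7.h176.SG.Walk

/-!
Away from the special points: from a point without near returns.
-/

set_option autoImplicit false

open UpperHalfPlane
open Finset (range)
open Pool.Agent.N661.SN (q q_im q_re NoReturn)

namespace Pool.Agent.Run7.h176.SG

/-- `s` lies on a geodesic, or is a CM point, attached to an integral binary quadratic form with
nonzero discriminant of absolute value at most `N`. -/
def Spec (N : ℕ) (s : ℍ) : Prop :=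
  ∃ a b c : ℤ,
    (0 < b ^ 2 - 4 * a * c ∧ b ^ 2 - 4 * a * c ≤ N ∧
      (a : ℝ) * ‖(s : ℂ)‖ ^ 2 + b * (s : ℂ).re + c = 0) ∨
    (b ^ 2 - 4 * a * c < 0 ∧ -(N : ℤ) ≤ b ^ 2 - 4 * a * c ∧
      (a : ℂ) * (s : ℂ) ^ 2 + b * (s : ℂ) + c = 0)

theorem ell_eq (a b c : ℤ) (s : ℂ) : ell a b c s = a * ‖s‖ ^ 2 + b * s.re + c := by
  rw [ell, ← Complex.normSq_eq_norm_sq, Complex.normSq_apply]
  ring

/-- a point `s` near `w` which is special gives a small form at `w` -/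
theorem spec_near {N : ℕ} {w s : ℍ} {δ : ℝ} (hδ : δ ≤ 1 / 4) (hs : Spec N s)
    (hd : dist w s < δ) : ∃ a b c : ℤ,
    (0 < b ^ 2 - 4 * a * c ∧ b ^ 2 - 4 * a * c ≤ N ∧ |ell a b c (w : ℂ)| ≤ 16 * δ * N * w.im) ∨
    (b ^ 2 - 4 * a * c < 0 ∧ -(N : ℤ) ≤ b ^ 2 - 4 * a * c ∧
      ‖q a b c (w : ℂ)‖ ≤ 16 * δ * N * w.im) := by
  have hδ0 : 0 < δ := dist_nonneg.trans_lt hd
  have hwi := w.im_pos
  obtain ⟨a, b, c, ⟨h1, h2, h3⟩ | ⟨h1, h2, h3⟩⟩ := hs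
  · refine ⟨a, b, c, Or.inl ⟨h1, h2, ?_⟩⟩
    have h4 := ell_small hδ hd h1 (by rw [ell_eq]; exact h3)
    refine h4.trans ?_
    have h5 : ((b ^ 2 - 4 * a * c : ℤ) : ℝ) ≤ N := by exact_mod_cast h2
    gcongr
  · refine ⟨a, b, c, Or.inr ⟨h1, h2, ?_⟩⟩
    have h4 := q_small hδ hd h1 h3
    refine h4.trans ?_
    have h5 : ((-(b ^ 2 - 4 * a * c) : ℤ) : ℝ) ≤ N := by
      have : -(b ^ 2 - 4 * a * c) ≤ (N : ℤ) := by linarith
      exact_mod_cast this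
    gcongr

theorem stage {U : ℂ → ℂ} {K : ℝ} (hK : 0 ≤ K)
    (hper : ∀ (n : ℕ) (z : ℂ), 0 < z.im → U (z + n) = U z)
    {c : ℂ} (hcK : ‖c‖ ≤ K)
    (hc : ∀ z : ℂ, 0 < z.im → U (3 * z) + ∑ b ∈ range 3, U ((z + (b : ℂ)) / 3) = c * U z)
    {z : ℍ} {R : ℝ} (hR : 1 ≤ R) (hzR : ‖(z : ℂ)‖ ≤ R) (hzr : 1 / R ≤ z.im)
    {N N' M : ℕ} {δ' ε : ℝ} (hz : NoReturn N' δ' z) (hN : 1 ≤ N) (hMN : 81 * N ^ 2 ≤ M)
    (hM : 1 + M ^ 2 ≤ 4 * N')
    (hε0 : 0 < ε) (hε1 : 6 * (M + 1) * ε < δ') (hε2 : 24 * R * ((M + 1) * ε) < 1) :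
    ∃ (w : ℍ) (m b : ℕ), b < 3 ^ m ∧ 9 ^ m ≤ 81 * N ∧ (w : ℂ) = ((z : ℂ) + b) / 3 ^ m ∧
      ‖U (z : ℂ)‖ ≤ (K + 3) ^ m * ‖U (w : ℂ)‖ ∧
      ∀ s : ℍ, Spec N s → ε / (1296 * N ^ 2) ≤ dist w s := by
  have hzi := z.im_pos
  have hN1 : (1 : ℝ) ≤ N := by exact_mod_cast hN
  have hNN : (N : ℝ) ≤ (N : ℝ) ^ 2 := by nlinarith
  have hMr : 81 * (N : ℝ) ^ 2 ≤ M := by exact_mod_cast hMN
  have hM1r : (1 : ℝ) ≤ M := by nlinarith
  have hM1 : 1 ≤ M := by exact_mod_cast hM1r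
  have hεδ : 6 * ε ≤ 6 * (M + 1) * ε := by nlinarith
  have hε3 : ε ≤ 1 / 24 := by
    have h1 : ε ≤ R * ((M + 1) * ε) := by
      have h2 : ε ≤ (M + 1) * ε := by nlinarith
      nlinarith
    linarith
  set δ : ℝ := ε / (1296 * N ^ 2) with hδdef
  have hδ0 : 0 < δ := by positivity
  have hδε : δ * (1296 * (N : ℝ) ^ 2) = ε := by
    rw [hδdef]; field_simp
  have hδ1 : δ ≤ 1 / 4 := by nlinarith
  have hkey : 16 * δ * N ≤ ε := by nlinarith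
  by_cases hline : ∃ v1 v2 v3 : ℤ, 0 < v2 ^ 2 - 4 * v1 * v3 ∧ v2 ^ 2 - 4 * v1 * v3 ≤ M ∧
      |ell v1 v2 v3 (z : ℂ)| ≤ ε * z.im
  swap
  · refine ⟨z, 0, 0, by norm_num, by simpa using (show 1 ≤ 81 * N by omega), by simp, by simp, ?_⟩
    intro s hs
    by_contra hcon
    rw [not_le] at hcon
    obtain ⟨a, b, c', ⟨h1, h2, h3⟩ | ⟨h1, h2, h3⟩⟩ := spec_near hδ1 hs hcon
    · apply hline
      refine ⟨a, b, c', h1, h2.trans ?_, h3.trans (by gcongr)⟩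
      have : (N : ℤ) ≤ (M : ℤ) := by exact_mod_cast (show (N : ℝ) ≤ M by nlinarith)
      exact this
    · refine no_cm hz h1 ?_ (lt_of_le_of_lt h3 ?_)
      · have h4 : (N : ℤ) ≤ (M : ℤ) ^ 2 := by
          have : (N : ℝ) ≤ (M : ℝ) ^ 2 := by nlinarith
          exact_mod_cast this
        have h5 : (1 : ℤ) + (M : ℤ) ^ 2 ≤ 4 * N' := by exact_mod_cast hM
        linarith
      · have : 16 * δ * N < δ' := by linarith
        exact mul_lt_mul_of_pos_right this hzi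
  obtain ⟨v1, v2, v3, hv1, hv2, hv3⟩ := hline
  obtain ⟨u0, a0, b0, c0, x, y, t, hu0, e1, e2, e3, hbez⟩ :=
    Pool.Agent.N661.SN.bezout3 (v1 := v1) (v2 := v2) (v3 := v3) (by
      rintro ⟨h1, h2, h3⟩
      rw [h1, h2] at hv1
      simp at hv1)
  have hu1 : (1 : ℤ) ≤ u0 ^ 2 := by
    have : 0 < u0 ^ 2 := by positivity
    linarith
  have hdu : v2 ^ 2 - 4 * v1 * v3 = u0 ^ 2 * (b0 ^ 2 - 4 * a0 * c0) := by
    rw [e1, e2, e3]; ring
  have hp1 : 0 < b0 ^ 2 - 4 * a0 * c0 := by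
    rw [hdu] at hv1
    exact (pos_iff_pos_of_mul_pos hv1).1 (by linarith)
  have hp2 : b0 ^ 2 - 4 * a0 * c0 ≤ M := by
    rw [hdu] at hv2
    nlinarith
  have hp3 : |ell a0 b0 c0 (z : ℂ)| ≤ ε * z.im := by
    have e : ell v1 v2 v3 (z : ℂ) = u0 * ell a0 b0 c0 (z : ℂ) := by
      rw [ell, ell, e1, e2, e3]
      push_cast
      ring
    rw [e, abs_mul] at hv3
    have h1 : (1 : ℝ) ≤ |(u0 : ℝ)| := by exact_mod_cast Int.one_le_abs hu0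
    have h2 : 0 ≤ |ell a0 b0 c0 (z : ℂ)| := abs_nonneg _
    nlinarith
  obtain ⟨r, hr, hdir⟩ := direction hbez
  obtain ⟨m, b, hm, hb, hbr, hle⟩ := walk hK hper hcK hc hzi hr (Nat.log 9 N)
  have hm1 : N < 9 ^ m := by
    have h1 : N < 9 ^ (Nat.log 9 N + 1) := Nat.lt_pow_succ_log_self (by norm_num) _
    refine h1.trans_le (Nat.pow_le_pow_right (by norm_num) ?_)
    omega
  have hm2 : 9 ^ m ≤ 81 * N := by
    have h1 : 9 ^ (Nat.log 9 N) ≤ N := Nat.pow_log_le_self 9 (by omega)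
    calc 9 ^ m ≤ 9 ^ (Nat.log 9 N + 2) := Nat.pow_le_pow_right (by norm_num) (by omega)
      _ = 81 * 9 ^ (Nat.log 9 N) := by ring
      _ ≤ 81 * N := Nat.mul_le_mul_left _ h1
  have h3m : (3 : ℝ) ^ m ≤ 81 * N := by
    have h1 : (3 : ℝ) ^ m ≤ 9 ^ m := pow_le_pow_left₀ (by norm_num) (by norm_num) m
    have h2 : (9 : ℝ) ^ m ≤ 81 * N := by exact_mod_cast hm2
    exact h1.trans h2
  have h3pos : (0 : ℝ) < 3 ^ m := by positivity
  have h9 : (9 : ℝ) ^ m = 3 ^ m * 3 ^ m := by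
    rw [← mul_pow]; norm_num
  have h9c : (9 : ℂ) ^ m = 3 ^ m * 3 ^ m := by
    rw [← mul_pow]; norm_num
  have h9z : (9 : ℤ) ^ m = 3 ^ m * 3 ^ m := by
    rw [← mul_pow]; norm_num
  have hwim : (((z : ℂ) + (b : ℂ)) / 3 ^ m).im = z.im / 3 ^ m := by
    rw [show (3 : ℂ) ^ m = (((3 : ℝ) ^ m : ℝ) : ℂ) by push_cast; ring, Complex.div_ofReal_im]
    simp
  have hwre : (((z : ℂ) + (b : ℂ)) / 3 ^ m).re = ((z : ℂ).re + b) / 3 ^ m := by
    rw [show (3 : ℂ) ^ m = (((3 : ℝ) ^ m : ℝ) : ℂ) by push_cast; ring, Complex.div_ofReal_re]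
    simp
  have hwpos : 0 < (((z : ℂ) + (b : ℂ)) / 3 ^ m).im := by
    rw [hwim]; positivity
  refine ⟨⟨((z : ℂ) + b) / 3 ^ m, hwpos⟩, m, b, hb, hm2, rfl, hle, ?_⟩
  set w : ℍ := ⟨((z : ℂ) + b) / 3 ^ m, hwpos⟩ with hw
  have hwc : (w : ℂ) = ((z : ℂ) + b) / 3 ^ m := rfl
  have hwi : w.im = z.im / 3 ^ m := hwim
  intro s hs
  by_contra hcon
  rw [not_le] at hcon
  have hfin : (3 : ℝ) ^ m * (16 * δ * N) ≤ ε := by
    calc (3 : ℝ) ^ m * (16 * δ * N) ≤ (81 * N) * (16 * δ * N) := by gcongr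
      _ = δ * (1296 * (N : ℝ) ^ 2) := by ring
      _ = ε := hδε
  obtain ⟨w1, w2, w3, ⟨h1, h2, h3⟩ | ⟨h1, h2, h3⟩⟩ := spec_near hδ1 hs hcon
  · -- a geodesic
    set W2 : ℤ := 2 * b * w1 + 3 ^ m * w2 with hW2
    set W3 : ℤ := (b : ℤ) ^ 2 * w1 + b * 3 ^ m * w2 + 9 ^ m * w3 with hW3
    have hdisc : W2 ^ 2 - 4 * w1 * W3 = 9 ^ m * (w2 ^ 2 - 4 * w1 * w3) := by
      rw [hW2, hW3, h9z]; ring
    have hell : ell w1 W2 W3 (z : ℂ) = 9 ^ m * ell w1 w2 w3 (w : ℂ) := by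
      rw [hwc, ell, ell, hwim, hwre, hW2, hW3, UpperHalfPlane.coe_im, h9]
      push_cast
      rw [h9]
      field_simp
      ring
    have hW1 : |ell w1 W2 W3 (z : ℂ)| ≤ ε * z.im := by
      rw [hell, abs_mul, abs_of_pos (by positivity)]
      calc (9 : ℝ) ^ m * |ell w1 w2 w3 (w : ℂ)| ≤ 9 ^ m * (16 * δ * N * w.im) := by gcongr
        _ = (3 ^ m * (16 * δ * N)) * z.im := by
            rw [hwi, h9]; field_simp
        _ ≤ ε * z.im := by gcongr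
    have hdM : W2 ^ 2 - 4 * w1 * W3 ≤ M := by
      rw [hdisc]
      calc (9 : ℤ) ^ m * (w2 ^ 2 - 4 * w1 * w3) ≤ 81 * N * N := by
            apply mul_le_mul _ h2 h1.le (by positivity)
            exact_mod_cast hm2
        _ = ((81 * N ^ 2 : ℕ) : ℤ) := by push_cast; ring
        _ ≤ M := by exact_mod_cast hMN
    obtain ⟨c1, c2, c3⟩ := one_line hR hzR hzr hz hM1 hM hε0 hε1 hε2 hp2
      (w1 := w1) (w2 := W2) (w3 := W3) (by rw [hdisc]; positivity) hdM hp3 hW1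
    have hfinal := arith hbez hp1 (b := b) (hdir b hbr) (m := m) (w3 := w3) hW2 hW3 h1 c1 c2 c3
    have : (9 : ℤ) ^ m ≤ N := hfinal.trans h2
    have h5 : (N : ℤ) < 9 ^ m := by exact_mod_cast hm1
    linarith
  · -- a special point
    set W2 : ℤ := 2 * b * w1 + 3 ^ m * w2 with hW2
    set W3 : ℤ := (b : ℤ) ^ 2 * w1 + b * 3 ^ m * w2 + 9 ^ m * w3 with hW3
    have hdisc : W2 ^ 2 - 4 * w1 * W3 = 9 ^ m * (w2 ^ 2 - 4 * w1 * w3) := by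
      rw [hW2, hW3, h9z]; ring
    have hqq : q w1 W2 W3 (z : ℂ) = 9 ^ m * q w1 w2 w3 (w : ℂ) := by
      rw [hwc, q, q, hW2, hW3]
      push_cast
      rw [h9c]
      field_simp
      ring
    refine no_cm hz (u1 := w1) (u2 := W2) (u3 := W3) ?_ ?_ ?_
    · rw [hdisc]
      have : (0 : ℤ) < 9 ^ m := by positivity
      nlinarith
    · rw [hdisc]
      have h5 : (9 : ℤ) ^ m * (-(w2 ^ 2 - 4 * w1 * w3)) ≤ 81 * N * N := by
        apply mul_le_mul _ (by linarith) (by linarith) (by positivity)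
        exact_mod_cast hm2
      have h6 : (81 * N * N : ℤ) ≤ (M : ℤ) := by
        calc (81 * N * N : ℤ) = ((81 * N ^ 2 : ℕ) : ℤ) := by push_cast; ring
          _ ≤ M := by exact_mod_cast hMN
      have h7 : (M : ℤ) ≤ (M : ℤ) ^ 2 := by
        have : (M : ℝ) ≤ (M : ℝ) ^ 2 := by nlinarith
        exact_mod_cast this
      have h8 : (1 : ℤ) + (M : ℤ) ^ 2 ≤ 4 * N' := by exact_mod_cast hM
      linarith
    · rw [hqq, norm_mul, norm_pow]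
      have h5 : ‖(9 : ℂ)‖ = 9 := by norm_num
      rw [h5]
      calc (9 : ℝ) ^ m * ‖q w1 w2 w3 (w : ℂ)‖ ≤ 9 ^ m * (16 * δ * N * w.im) := by gcongr
        _ = (3 ^ m * (16 * δ * N)) * z.im := by
            rw [hwi, h9]; field_simp
        _ ≤ ε * z.im := by gcongr
        _ < δ' * z.im := by
            apply mul_lt_mul_of_pos_right _ hzi
            linarith

end Pool.Agent.Run7.h176.SG
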