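import Mathlib
import Pool.Agent.Run7.h176.SG.Stage
import Pool.Agent.N889.SN.Fin

/-!
Large values of Hecke-Maass cusp forms away from the special geodesics and the special points.
-/

set_option autoImplicit false

open UpperHalfPlane
open Pool.Agent.N661.SN (NoReturn HeckeRel)

namespace Pool.Agent.Run7.h176.SG

open Pool.Agent.Results.MP_8fded1_nt.EllipticPointIsHarmless (IsHeckeMaass)

/-- position of the Hecke translates of a point -/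
theorem ptbound {z w : ℍ} {R : ℝ} (hR : 1 ≤ R) (hzR : ‖(z : ℂ)‖ ≤ R) (hzr : 1 / R ≤ z.im)
    {a b d : ℕ} {P : ℝ} (ha : 0 < a) (hd : 0 < d) (hb : b < d) (hP : ((a * d : ℕ) : ℝ) ≤ P)
    (hw : (w : ℂ) = ((a : ℂ) * (z : ℂ) + (b : ℂ)) / (d : ℂ)) :
    ‖(w : ℂ)‖ ≤ 2 * P * R ∧ 1 / (2 * P * R) ≤ w.im := by
  have ha1 : (1 : ℝ) ≤ a := by exact_mod_cast ha
  have hd1 : (1 : ℝ) ≤ d := by exact_mod_cast hd
  have hbd : (b : ℝ) ≤ d := by exact_mod_cast hb.le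
  push_cast at hP
  have haP : (a : ℝ) ≤ P := by nlinarith
  have hdP : (d : ℝ) ≤ P := by nlinarith
  have hP1 : 1 ≤ P := ha1.trans haP
  have hR0 : 0 < R := by linarith
  have hdpos : (0 : ℝ) < d := by linarith
  constructor
  · rw [hw, norm_div, Complex.norm_natCast, div_le_iff₀ hdpos]
    have h1 : ‖(a : ℂ) * (z : ℂ) + (b : ℂ)‖ ≤ a * R + d := by
      refine (norm_add_le _ _).trans ?_
      rw [norm_mul, Complex.norm_natCast, Complex.norm_natCast]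
      gcongr
    have h2 : (a : ℝ) * R ≤ P * R * d := by
      calc (a : ℝ) * R ≤ P * R := by gcongr
        _ = P * R * 1 := by ring
        _ ≤ P * R * d := by gcongr
    have h3 : (d : ℝ) ≤ P * R * d := by
      have : 1 ≤ P * R := by nlinarith
      nlinarith
    linarith
  · have him : w.im = a * z.im / d := by
      have h1 := congrArg Complex.im hw
      rw [show ((d : ℕ) : ℂ) = ((d : ℝ) : ℂ) by norm_cast, Complex.div_ofReal_im] at h1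
      rw [← UpperHalfPlane.coe_im, h1]
      simp
    rw [him, div_le_div_iff₀ (by positivity) hdpos]
    have h1 : 1 ≤ z.im * R := by
      rwa [div_le_iff₀ hR0] at hzr
    have h2 : (1 : ℝ) * d ≤ (a * (z.im * R)) * P := by
      have h3 : 1 ≤ a * (z.im * R) := by nlinarith
      exact mul_le_mul h3 hdP (by linarith) (by linarith)
    nlinarith

theorem pointwise : ∃ A : ℕ, 1 ≤ A ∧ ∀ (U : ℂ → ℂ) (T : ℝ), IsHeckeMaass U T →
    ∀ R : ℝ, 1 ≤ R → ∀ z : ℍ, ‖(z : ℂ)‖ ≤ R → 1 / R ≤ z.im → ∀ N : ℕ, 1 ≤ N →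
    ∃ (w : ℍ) (a b d : ℕ), 0 < a ∧ 0 < d ∧ b < d ∧ a * d ≤ 2 ^ 56 * N ^ 13 ∧
      (w : ℂ) = ((a : ℂ) * (z : ℂ) + (b : ℂ)) / (d : ℂ) ∧
      ‖U (z : ℂ)‖ ≤ (A : ℝ) * (N : ℝ) ^ A * ‖U (w : ℂ)‖ ∧
      ∀ s : ℍ, Spec N s → 1 / (2 ^ 95 * R ^ 2 * (N : ℝ) ^ 22) ≤ dist w s := by
  set K : ℝ := Pool.Agent.N889.SN.KK 3 with hKdef
  have hK : 0 ≤ K := Pool.Agent.N889.SN.KK_nonneg 3
  obtain ⟨κ, hκ⟩ : ∃ κ : ℕ, K + 3 ≤ (9 : ℝ) ^ κ := by
    obtain ⟨κ, hκ⟩ := pow_unbounded_of_one_lt (K + 3) (show (1 : ℝ) < 9 by norm_num)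
    exact ⟨κ, hκ.le⟩
  refine ⟨2 ^ 145 * 81 ^ κ + (36 + κ), ?_, ?_⟩
  · have : 0 < 2 ^ 145 * 81 ^ κ := by positivity
    omega
  intro U T hU R hR z hzR hzr N hN
  have hN1 : (1 : ℝ) ≤ N := by exact_mod_cast hN
  have hR0 : 0 < R := by linarith
  set N' : ℕ := 6561 * N ^ 4 with hN'
  have hN'1 : 1 ≤ N' := by
    rw [hN']
    have : 1 ≤ N ^ 4 := Nat.one_le_pow _ _ hN
    omega
  have hN'r : (N' : ℝ) = 6561 * (N : ℝ) ^ 4 := by rw [hN']; push_cast; ring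
  have hN'1r : (1 : ℝ) ≤ N' := by exact_mod_cast hN'1
  have hN'0 : (0 : ℝ) < N' := by linarith
  have hRel : HeckeRel U := ⟨fun z hz => (hU.2.1 z hz).1, hU.2.2.2.2.2⟩
  obtain ⟨w0, a0, b0, d0, ha0, hd0, hbd0, had0, hw0, hle0, hret⟩ :=
    Pool.Agent.N661.SN.generic hRel hR hzR hzr hN'1
  -- the form
  have hPer := Pool.Agent.N889.SN.isPer hU
  obtain ⟨c, hcK, hc⟩ := hPer.hecke 3 Nat.prime_three
  have hper : ∀ (n : ℕ) (z : ℂ), 0 < z.im → U (z + n) = U z := fun n z hz => hPer.nat n hz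
  have hc' : ∀ z : ℂ, 0 < z.im → U (3 * z) + ∑ b ∈ Finset.range 3, U ((z + (b : ℂ)) / 3) = c * U z := by
    intro z hz
    have := hc z hz
    simpa using this
  -- the parameters
  have had0r : ((a0 * d0 : ℕ) : ℝ) ≤ 2 ^ 10 * (N' : ℝ) ^ 3 := by exact_mod_cast had0
  obtain ⟨hw0R, hw0r⟩ := ptbound hR hzR hzr ha0 hd0 hbd0 had0r hw0
  set R0 : ℝ := 2 * (2 ^ 10 * (N' : ℝ) ^ 3) * R with hR0def
  have hR01 : 1 ≤ R0 := by
    have h1 : 1 ≤ (N' : ℝ) ^ 3 := one_le_pow₀ hN'1r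
    rw [hR0def]
    nlinarith
  set δ' : ℝ := 1 / (2 ^ 15 * R ^ 2 * (N' : ℝ) ^ 4) with hδ'
  set ε : ℝ := 1 / (2 ^ 20 * R ^ 2 * (N' : ℝ) ^ 5) with hε
  have hε0 : 0 < ε := by positivity
  have hNN : (1 : ℝ) ≤ (N : ℝ) ^ 2 := one_le_pow₀ hN1
  have hMN' : (((81 * N ^ 2 : ℕ) : ℝ) + 1) ≤ N' := by
    rw [hN'r]
    push_cast
    have : (N : ℝ) ^ 4 = (N : ℝ) ^ 2 * (N : ℝ) ^ 2 := by ring
    rw [this]
    nlinarith
  have hε1 : 6 * (((81 * N ^ 2 : ℕ) : ℝ) + 1) * ε < δ' := by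
    have h1 : 6 * (((81 * N ^ 2 : ℕ) : ℝ) + 1) * ε ≤ 6 * N' * ε := by gcongr
    refine h1.trans_lt ?_
    rw [hε, hδ', mul_one_div, div_lt_div_iff₀ (by positivity) (by positivity)]
    have h2 : 0 < R ^ 2 * (N' : ℝ) ^ 5 := by positivity
    nlinarith
  have hε2 : 24 * R0 * ((((81 * N ^ 2 : ℕ) : ℝ) + 1) * ε) < 1 := by
    have h1 : 24 * R0 * ((((81 * N ^ 2 : ℕ) : ℝ) + 1) * ε) ≤ 24 * R0 * (N' * ε) := by gcongr
    refine h1.trans_lt ?_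
    have h2 : 24 * R0 * (N' * ε) = 24 * 2 ^ 11 / 2 ^ 20 * (1 / (R * N')) := by
      rw [hR0def, hε]
      field_simp
    rw [h2]
    have h3 : 1 / (R * (N' : ℝ)) ≤ 1 := by
      rw [div_le_one (by positivity)]
      nlinarith
    have h4 : 0 < 1 / (R * (N' : ℝ)) := by positivity
    norm_num
    norm_num at h3 h4
    nlinarith
  have hMM : 1 + (81 * N ^ 2) ^ 2 ≤ 4 * N' := by
    rw [hN']
    have : 1 ≤ N ^ 4 := Nat.one_le_pow _ _ hN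
    have e : (81 * N ^ 2) ^ 2 = 6561 * N ^ 4 := by ring
    rw [e]
    omega
  obtain ⟨w, m, b, hb, hm, hw, hle, hfar⟩ := stage hK hper hcK hc' hR01 hw0R hw0r hret hN le_rfl
    hMM hε0 hε1 hε2
  have h3m : 3 ^ m ≤ 81 * N := (Nat.pow_le_pow_left (by norm_num) m).trans hm
  have h3pos : 0 < 3 ^ m := by positivity
  refine ⟨w, a0, b0 + b * d0, d0 * 3 ^ m, ha0, Nat.mul_pos hd0 h3pos, ?_, ?_, ?_, ?_, ?_⟩
  · calc b0 + b * d0 < d0 + b * d0 := by omega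
      _ = (b + 1) * d0 := by ring
      _ ≤ 3 ^ m * d0 := Nat.mul_le_mul_right _ hb
      _ = d0 * 3 ^ m := by ring
  · calc a0 * (d0 * 3 ^ m) = (a0 * d0) * 3 ^ m := by ring
      _ ≤ (2 ^ 10 * N' ^ 3) * (81 * N) := Nat.mul_le_mul had0 h3m
      _ = (2 ^ 10 * 6561 ^ 3 * 81) * N ^ 13 := by rw [hN']; ring
      _ ≤ 2 ^ 56 * N ^ 13 := Nat.mul_le_mul_right _ (by norm_num)
  · rw [hw, hw0]
    have h1 : (d0 : ℂ) ≠ 0 := by exact_mod_cast hd0.ne'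
    push_cast
    field_simp
    ring
  · have h9 : (K + 3) ^ m ≤ 81 ^ κ * (N : ℝ) ^ κ := by
      calc (K + 3) ^ m ≤ ((9 : ℝ) ^ κ) ^ m := by gcongr
        _ = ((9 : ℝ) ^ m) ^ κ := by rw [← pow_mul, ← pow_mul, mul_comm]
        _ ≤ (81 * (N : ℝ)) ^ κ := by
            gcongr
            exact_mod_cast hm
        _ = _ := by rw [mul_pow]
    have h10 : (2 : ℝ) ^ 30 * (N' : ℝ) ^ 9 ≤ 2 ^ 145 * (N : ℝ) ^ 36 := by
      rw [hN'r]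
      have : (2 : ℝ) ^ 30 * (6561 * (N : ℝ) ^ 4) ^ 9 = (2 ^ 30 * 6561 ^ 9) * (N : ℝ) ^ 36 := by ring
      rw [this]
      gcongr
      norm_num
    have hU0 : 0 ≤ ‖U (w : ℂ)‖ := norm_nonneg _
    calc ‖U (z : ℂ)‖ ≤ 2 ^ 30 * (N' : ℝ) ^ 9 * ‖U (w0 : ℂ)‖ := hle0
      _ ≤ (2 ^ 145 * (N : ℝ) ^ 36) * ((K + 3) ^ m * ‖U (w : ℂ)‖) := by gcongr
      _ ≤ (2 ^ 145 * (N : ℝ) ^ 36) * ((81 ^ κ * (N : ℝ) ^ κ) * ‖U (w : ℂ)‖) := by gcongr
      _ = (2 ^ 145 * 81 ^ κ) * (N : ℝ) ^ (36 + κ) * ‖U (w : ℂ)‖ := by ring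
      _ ≤ ((2 ^ 145 * 81 ^ κ + (36 + κ) : ℕ) : ℝ) * (N : ℝ) ^ (2 ^ 145 * 81 ^ κ + (36 + κ)) *
          ‖U (w : ℂ)‖ := by
          apply mul_le_mul_of_nonneg_right _ hU0
          apply mul_le_mul
          · push_cast
            have : (0 : ℝ) ≤ κ := Nat.cast_nonneg κ
            linarith
          · exact pow_le_pow_right₀ hN1 (Nat.le_add_left _ _)
          · positivity
          · positivity
  · intro s hs
    refine le_trans ?_ (hfar s hs)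
    rw [hε, hN'r, div_div, div_le_div_iff₀ (by positivity) (by positivity)]
    have e : (2 : ℝ) ^ 20 * R ^ 2 * (6561 * (N : ℝ) ^ 4) ^ 5 * (1296 * (N : ℝ) ^ 2) =
        (2 ^ 20 * 6561 ^ 5 * 1296) * (R ^ 2 * (N : ℝ) ^ 22) := by ring
    rw [e, one_mul, one_mul, mul_assoc ((2 : ℝ) ^ 95)]
    have h1 : (2 : ℝ) ^ 20 * 6561 ^ 5 * 1296 ≤ 2 ^ 95 := by norm_num
    exact mul_le_mul_of_nonneg_right h1 (by positivity)

end Pool.Agent.Run7.h176.SG
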